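import Pool.Agent.Work.MP_69fea5_lc.PT.Final

set_option autoImplicit false

namespace Pool.Agent.Results.MP_69fea5_lc.PersistentColours

open Pool.Agent.Work.MP_69fea5_lc.PT.Defs

/-- **Persistent colours in Hindman's theorem.** (1) Let `c` be a colouring of the positive
integers with finitely many colours, arithmetical in `Z` (for example computable, `Z = ∅`). There
is an infinite set `Y`, arithmetical in `Z`, such that every colour `c n` which occurs on `FS(Y)`
is the colour of a solution `X` of `c` with `FS(X) ⊆ FS(Y)`; moreover, for any sequence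
`C 0, C 1, …` of sets which are not arithmetical in `Z`, `X` can be chosen such that no `C j` is
recursively enumerable in, or computable from, `X` together with a set arithmetical in `Z`.
(2) If all solutions of `c` have the same colour, then `c` has a solution which is arithmetical
in `Z`. (3) Every IP*-set `A` contains `FS(Y)` for an infinite set `Y` arithmetical in `A`. -/
theorem result :
    (∀ (Z : Set ℕ) (k : ℕ) (c : ℕ → Fin k), (∀ i, ArithIn Z {n | c n = i}) →
      ∃ Y : Set ℕ, ArithIn Z Y ∧ Y.Infinite ∧ (∀ y ∈ Y, 0 < y) ∧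
        ∀ n ∈ FS Y, ∀ C : ℕ → Set ℕ, (∀ j, ¬ ArithIn Z (C j)) →
          ∃ X : Set ℕ, IsSolution c (c n) X ∧ FS X ⊆ FS Y ∧ ∀ j, Avoids Z X (C j)) ∧
    (∀ (Z : Set ℕ) (k : ℕ) (c : ℕ → Fin k), (∀ i, ArithIn Z {n | c n = i}) →
      (∀ (i i' : Fin k) (X X' : Set ℕ), IsSolution c i X → IsSolution c i' X' → i = i') →
        ∃ (Y : Set ℕ) (i : Fin k), ArithIn Z Y ∧ IsSolution c i Y) ∧
    ∀ A : Set ℕ, IPStar A →
      ∃ Y : Set ℕ, ArithIn A Y ∧ Y.Infinite ∧ (∀ y ∈ Y, 0 < y) ∧ FS Y ⊆ A :=
  Pool.Agent.Work.MP_69fea5_lc.PT.Final.final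

end Pool.Agent.Results.MP_69fea5_lc.PersistentColours
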