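import Pool.Agent.Work.MP_69fea5_lc.S5.Final

set_option autoImplicit false

namespace Pool.Agent.Results.MP_69fea5_lc.SigmaFive

open scoped Computability

open Classical in
/-- The characteristic function of a set of natural numbers, as an oracle. -/
noncomputable def charFun (S : Set ℕ) : ℕ →. ℕ := fun n => Part.some (if n ∈ S then 1 else 0)

/-- `S` is a `Σ⁰₃` set: `n ∈ S ↔ ∃ s, ∀ t, ∃ u, R n s t u` with `R` computable. By Post's theorem
these are the sets that are recursively enumerable in `∅''`, and `∅'''` is the complete one. -/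
def IsSigmaThree (S : Set ℕ) : Prop :=
  ∃ R : ℕ → ℕ → ℕ → ℕ → Bool,
    (Computable fun t : ℕ × ℕ × ℕ × ℕ => R t.1 t.2.1 t.2.2.1 t.2.2.2) ∧
    ∀ n, n ∈ S ↔ ∃ s, ∀ t, ∃ u, R n s t u = true

/-- `S` is a `Σ⁰₅` set: `n ∈ S ↔ ∃ i, ∀ p, ∃ b, ∀ u, ∃ l, R n i p b u l` with `R` computable. By
Post's theorem these are the sets that are recursively enumerable in `∅''''`; all sets computable in
`∅''''` are `Σ⁰₅`. -/
def IsSigmaFive (S : Set ℕ) : Prop :=
  ∃ R : ℕ → ℕ → ℕ → ℕ → ℕ → ℕ → Bool,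
    (Computable fun t : ℕ × ℕ × ℕ × ℕ × ℕ × ℕ =>
      R t.1 t.2.1 t.2.2.1 t.2.2.2.1 t.2.2.2.2.1 t.2.2.2.2.2) ∧
    ∀ n, n ∈ S ↔ ∃ i, ∀ p, ∃ b, ∀ u, ∃ l, R n i p b u l = true

/-- `P` is a `Σ⁰₅` binary relation. -/
def IsSigmaFiveRel (P : ℕ → ℕ → Prop) : Prop :=
  ∃ R : ℕ → ℕ → ℕ → ℕ → ℕ → ℕ → ℕ → Bool,
    (Computable fun t : ℕ × ℕ × ℕ × ℕ × ℕ × ℕ × ℕ =>
      R t.1 t.2.1 t.2.2.1 t.2.2.2.1 t.2.2.2.2.1 t.2.2.2.2.2.1 t.2.2.2.2.2.2) ∧
    ∀ n y, P n y ↔ ∃ i, ∀ p, ∃ b, ∀ u, ∃ l, R n y i p b u l = true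

/-- For every `Σ⁰₅` relation `P` the set `X` computes a total function `f` such that for no `n` is
`f n` the unique `y` with `P n y`. Applied to the graph of a universal partial `∅''''`-computable
function this says that `X` computes a function that is diagonally noncomputable relative to
`∅''''`. -/
def ComputesDiagonal (X : Set ℕ) : Prop :=
  ∀ P : ℕ → ℕ → Prop, IsSigmaFiveRel P →
    ∃ f : ℕ → ℕ, ((fun n => Part.some (f n) : ℕ →. ℕ) ≤ᵀ charFun X) ∧
      ∀ n, ¬ ∀ y, P n y ↔ y = f n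

/-- `X` is a solution to the instance `c` of the restriction of Hindman's theorem to sums of at
most 3361 terms: `X` is an infinite set of positive integers and `c` is constant on the sums of at
least one and at most 3361 distinct elements of `X`. In particular every solution to the instance
`c` of Hindman's theorem has this property. -/
def IsSolution {k : ℕ} (c : ℕ → Fin k) (X : Set ℕ) : Prop :=
  X.Infinite ∧ (∀ x ∈ X, 0 < x) ∧
    ∃ b, ∀ F : Finset ℕ, F.Nonempty → F.card ≤ 3361 → (↑F : Set ℕ) ⊆ X → c (∑ x ∈ F, x) = b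

/-- There is a computable colouring of the positive integers with 96 colours such that every
infinite set of positive integers all of whose sums of at most 3361 distinct elements have the same
colour (in particular every solution to this instance of Hindman's theorem) computes every `Σ⁰₃` set
(that is, it computes `∅'''`), is not `Σ⁰₅` (in particular it is not computable in `∅''''`), and
computes a function that is diagonally noncomputable relative to `∅''''`. -/
theorem result : ∃ c : ℕ → Fin 96, Computable c ∧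
    ∀ X : Set ℕ, IsSolution c X →
      (∀ S : Set ℕ, IsSigmaThree S → charFun S ≤ᵀ charFun X) ∧ ¬ IsSigmaFive X ∧
        ComputesDiagonal X := by
  refine ⟨fun n => ⟨_, Pool.Agent.Work.MP_69fea5_lc.S5.e96_lt n⟩, ?_, ?_⟩
  · exact (Primrec.fin_val_iff.mp Pool.Agent.Work.MP_69fea5_lc.S5.pr_final).to_comp
  · rintro X ⟨hX, h0, b, hb⟩
    obtain ⟨h3, h4⟩ := Pool.Agent.Work.MP_69fea5_lc.S5.final5 hX h0
      ⟨b.1, fun F h1 h2 h3 => congrArg Fin.val (hb F h1 (by
        have : Pool.Agent.Work.MP_69fea5_lc.S5.N₀ + 1 = 3361 := rfl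
        omega) h3)⟩
    refine ⟨?_, h3, ?_⟩
    · rintro S ⟨R, hR, hS⟩
      exact RecursiveIn.iff_nat.mpr (Pool.Agent.Work.MP_69fea5_lc.S5.final3 hX h0
        ⟨b.1, fun F h1 h2 h3 => congrArg Fin.val (hb F h1 (by omega) h3)⟩ S R hR hS)
    · rintro P ⟨R, hR, hP⟩
      obtain ⟨f, hf, hd⟩ := h4 R hR
      refine ⟨f, RecursiveIn.iff_nat.mpr hf, fun n hn => hd n (fun y => ?_)⟩
      rw [← hP, hn]

end Pool.Agent.Results.MP_69fea5_lc.SigmaFive
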