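import Pool.Agent.Work.MP_69fea5_lc.TX.Main
import Pool.Agent.Work.MP_69fea5_lc.KC.Final

/-!
Hindman's theorem in omega-models of `ACA_0` for all colourings whose limit set contains a minimal
subshift with a minimal extension that is built up from a point by distal, mixing, proximal and
isometric extensions, with finitely many blocks.
-/

set_option autoImplicit false

namespace Pool.Agent.Results.MP_69fea5_lc.TowerSystems

open Pool.Agent.Work.MP_69fea5_lc

variable {k l : ℕ}

/-! ### Hindman's theorem and omega-models -/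

/-- `Y` is a solution to the instance `c` of Hindman's theorem: `Y` is an infinite set of positive
integers and `c` is constant on the set `FS(Y)` of sums of finite nonempty subsets of `Y`. -/
def IsSolution (c : ℕ → Fin k) (Y : Set ℕ) : Prop :=
  Y.Infinite ∧ (∀ x ∈ Y, 0 < x) ∧
    ∃ i, ∀ F : Finset ℕ, F.Nonempty → (↑F : Set ℕ) ⊆ Y → c (∑ x ∈ F, x) = i

/-- The characteristic function of a set of natural numbers, as an oracle or as a function to
compute. -/
noncomputable def charFun (A : Set ℕ) : ℕ →. ℕ :=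
  open Classical in fun n => Part.some (if n ∈ A then 1 else 0)

/-- The omega-models of `ACA_0`: nonempty families of sets of natural numbers that contain every
set computable from two of their members and are closed under projections. -/
structure IsModelACA (S : Set (Set ℕ)) : Prop where
  nonempty : S.Nonempty
  recursive : ∀ A ∈ S, ∀ B ∈ S, ∀ C : Set ℕ, RecursiveIn {charFun A, charFun B} (charFun C) → C ∈ S
  projection : ∀ A ∈ S, {n | ∃ m, Nat.pair n m ∈ A} ∈ S

/-! ### Minimal systems, factors, extensions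

A system is a closed set `X` of sequences `z : ℕ → Fin l` (product topology) together with the map
`T z = z ∘ s` for some `s : ℕ → ℕ`, so that `T ^ x z = z ∘ s ^ x`. For `s n = n + 1` the systems
are the subshifts; every zero-dimensional compact metrizable system is of this form (sequences of
points of the Cantor space, `s ⟨i, j⟩ = ⟨i + 1, j⟩`). A map `f : Fin l → Fin k` defines the
equivariant map `θ z i = f ((T ^ i z) 0)` from `X` to the full shift on `k` letters. -/

/-- `X` is a minimal system for `z ↦ z ∘ s`: nonempty, closed, invariant, and it contains no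
smaller such set. -/
structure IsMinimal (s : ℕ → ℕ) (X : Set (ℕ → Fin l)) : Prop where
  nonempty : X.Nonempty
  closed : IsClosed X
  invariant : ∀ z ∈ X, z ∘ s ∈ X
  minimal : ∀ N ⊆ X, N.Nonempty → IsClosed N → (∀ z ∈ N, z ∘ s ∈ N) → N = X

/-- Closed invariant equivalence relations `R` on `X`, as sets of pairs. They correspond to the
factors `X / R` of `X`. -/
structure IsFactor (s : ℕ → ℕ) (X : Set (ℕ → Fin l)) (R : Set ((ℕ → Fin l) × (ℕ → Fin l))) :
    Prop where
  closed : IsClosed R
  sub : ∀ a b, (a, b) ∈ R → a ∈ X ∧ b ∈ X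
  refl : ∀ a ∈ X, (a, a) ∈ R
  symm : ∀ a b, (a, b) ∈ R → (b, a) ∈ R
  trans : ∀ a b d, (a, b) ∈ R → (b, d) ∈ R → (a, d) ∈ R
  invariant : ∀ a b, (a, b) ∈ R → (a ∘ s, b ∘ s) ∈ R

/-- `T ^ x a` and `T ^ x b` are `m`-close modulo `R`: they agree below `m` with the members of a
pair in `R`. -/
def CloseAt (s : ℕ → ℕ) (R : Set ((ℕ → Fin l) × (ℕ → Fin l))) (m x : ℕ) (a b : ℕ → Fin l) :
    Prop :=
  ∃ p ∈ R, (∀ i < m, p.1 i = a (s^[x] i)) ∧ ∀ i < m, p.2 i = b (s^[x] i)

/-- `a` and `b` are proximal modulo `R`, that is, in `X / R`. -/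
def Proximal (s : ℕ → ℕ) (R : Set ((ℕ → Fin l) × (ℕ → Fin l))) (a b : ℕ → Fin l) : Prop :=
  ∀ m, ∃ x, CloseAt s R m x a b

/-- `y` is proximal to the colouring `c` modulo `R`: for every `m` there are a place `x` and a
pair `(p.1, p.2)` in `R` such that `T ^ x y` agrees with `p.1` below `m` and `θ p.2` agrees below
`m` with the shift of `c` by `x`. -/
def ProximalToColouring (s : ℕ → ℕ) (f : Fin l → Fin k) (c : ℕ → Fin k)
    (R : Set ((ℕ → Fin l) × (ℕ → Fin l))) (y : ℕ → Fin l) : Prop :=
  ∀ m, ∃ x, ∃ p ∈ R, (∀ i < m, p.1 i = y (s^[x] i)) ∧ ∀ i < m, f (p.2 (s^[i] 0)) = c (x + i)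

/-- The extension `X / R' → X / R` is proximal: points equivalent under `R` are proximal modulo
`R'`. -/
def ProximalStep (s : ℕ → ℕ) (R R' : Set ((ℕ → Fin l) × (ℕ → Fin l))) : Prop :=
  ∀ a b, (a, b) ∈ R → Proximal s R' a b

/-- The extension `X / R' → X / R` is distal: points that are equivalent under `R` and proximal
modulo `R'` are equivalent under `R'`. -/
def DistalStep (s : ℕ → ℕ) (R R' : Set ((ℕ → Fin l) × (ℕ → Fin l))) : Prop :=
  ∀ a b, (a, b) ∈ R → Proximal s R' a b → (a, b) ∈ R'

/-- For some `p` every class of `R` consists of at most `p` classes of `R'`. -/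
def FiniteStep (R R' : Set ((ℕ → Fin l) × (ℕ → Fin l))) : Prop :=
  ∃ p, ∀ g : ℕ → (ℕ → Fin l), (∀ i ≤ p, (g 0, g i) ∈ R) → ∃ i ≤ p, ∃ j < i, (g j, g i) ∈ R'

/-- All limits of pairs `T ^ x (a, b)`, where `(a, b)` runs through pairs in `R` that tend to the
diagonal, are in `R'`. This holds if `X / R' → X / R` is an isometric (equicontinuous)
extension. -/
def IsometricStep (s : ℕ → ℕ) (R R' : Set ((ℕ → Fin l) × (ℕ → Fin l))) : Prop :=
  ∀ q : (ℕ → Fin l) × (ℕ → Fin l), (∀ m, ∃ a b, (a, b) ∈ R ∧ (∀ i < m, a i = b i) ∧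
    ∃ x, ∀ i < m, a (s^[x] i) = q.1 i ∧ b (s^[x] i) = q.2 i) → q ∈ R'

/-- Thickly syndetic sets: for every `L` the intervals of length `L` contained in the set begin at
a syndetic set of places. -/
def ThicklySyndetic (A : Set ℕ) : Prop :=
  ∀ L, ∃ D, ∀ n, ∃ x, n ≤ x ∧ x ≤ n + D ∧ ∀ i < L, x + i ∈ A

/-- Mixing extensions: for `(a, b)` in `R` and every neighbourhood of `a`, the set of the `x` such
that the neighbourhood contains a point `a'` of the class of `b` with `T ^ x a'` close to `T ^ x b`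
modulo `R'`, is thickly syndetic. Proximal extensions are mixing; `X → point` is mixing if `X` is
weakly mixing. -/
def MixingStep (s : ℕ → ℕ) (R R' : Set ((ℕ → Fin l) × (ℕ → Fin l))) : Prop :=
  ∀ a b, (a, b) ∈ R → ∀ m, ThicklySyndetic {x | ∃ a', (a', b) ∈ R ∧ (∀ i < m, a' i = a i) ∧
    CloseAt s R' m x a' b}

/-- The relations that are obtained from `R` by a transfinite sequence of mixing extensions. -/
inductive Mixing (s : ℕ → ℕ) (X : Set (ℕ → Fin l)) (R : Set ((ℕ → Fin l) × (ℕ → Fin l))) :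
    Set ((ℕ → Fin l) × (ℕ → Fin l)) → Prop
  | refl : Mixing s X R R
  | step (R₁ R₂ : Set ((ℕ → Fin l) × (ℕ → Fin l))) (h : Mixing s X R R₁) (hR : IsFactor s X R₂)
      (hRR : R₂ ⊆ R₁) (hm : MixingStep s R₁ R₂) : Mixing s X R R₂
  | limit (R' : ℕ → Set ((ℕ → Fin l) × (ℕ → Fin l))) (h : ∀ n, Mixing s X R (R' n))
      (hRR : ∀ n, R' (n + 1) ⊆ R' n) : Mixing s X R (⋂ n, R' n)

/-! ### Towers -/

/-- The code of a closed set of sequences: the codes of the words with which its points begin. -/
def code (X : Set (ℕ → Fin l)) : Set ℕ :=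
  {n | ∃ z ∈ X, ∃ i, Encodable.encode ((List.range i).map z) = n}

/-- The code of a closed relation: the codes of the pairs of words with which its pairs begin. -/
def codeRel (R : Set ((ℕ → Fin l) × (ℕ → Fin l))) : Set ℕ :=
  {n | ∃ p ∈ R, ∃ i j, Encodable.encode ((List.range i).map p.1, (List.range j).map p.2) = n}

/-- The code of a sequence of closed relations. -/
def codeSeq (R : ℕ → Set ((ℕ → Fin l) × (ℕ → Fin l))) : Set ℕ :=
  {n | ∃ t, ∃ p ∈ R t, ∃ i j,
    Encodable.encode (t, (List.range i).map p.1, (List.range j).map p.2) = n}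

/-- The closed invariant equivalence relations `R` on `X` (factors `X / R`) that are reached by
finitely many of the following steps. `full`: the one point factor. `point`: `R` such that some
`y ∈ X` is proximal to `c` modulo `R` and is proximal modulo `R` to no point of `X` outside of its
`R`-class; code of `R` in `S`. `proximal`, `isometric`: proximal and isometric extensions, nothing
effective is assumed. `distal`: distal extensions, code of the larger factor in `S`. `mixing`:
transfinite sequences of mixing extensions, codes of the first and the last factor in `S`. `limit`: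
inverse limits of sequences of extensions each of which is proximal, or distal with boundedly many
points in its fibres, codes of the relations `R 1, R 2, …` in `S`. -/
inductive Reached (S : Set (Set ℕ)) (s : ℕ → ℕ) (X : Set (ℕ → Fin l)) (f : Fin l → Fin k)
    (c : ℕ → Fin k) : Set ((ℕ → Fin l) × (ℕ → Fin l)) → Prop
  | full : Reached S s X f c {p | p.1 ∈ X ∧ p.2 ∈ X}
  | point (R : Set ((ℕ → Fin l) × (ℕ → Fin l))) (hR : IsFactor s X R) (hS : codeRel R ∈ S)
      (y : ℕ → Fin l) (hy : y ∈ X) (hyc : ProximalToColouring s f c R y)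
      (hd : ∀ z ∈ X, Proximal s R y z → (y, z) ∈ R) : Reached S s X f c R
  | proximal (R R' : Set ((ℕ → Fin l) × (ℕ → Fin l))) (h : Reached S s X f c R)
      (hR' : IsFactor s X R') (hRR : R' ⊆ R) (hp : ProximalStep s R R') : Reached S s X f c R'
  | isometric (R R' : Set ((ℕ → Fin l) × (ℕ → Fin l))) (h : Reached S s X f c R)
      (hR' : IsFactor s X R') (hRR : R' ⊆ R) (hi : IsometricStep s R R') : Reached S s X f c R'
  | distal (R R' : Set ((ℕ → Fin l) × (ℕ → Fin l))) (h : Reached S s X f c R)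
      (hR' : IsFactor s X R') (hRR : R' ⊆ R) (hS : codeRel R' ∈ S) (hd : DistalStep s R R') :
      Reached S s X f c R'
  | mixing (R R' : Set ((ℕ → Fin l) × (ℕ → Fin l))) (h : Reached S s X f c R)
      (hS : codeRel R ∈ S) (hS' : codeRel R' ∈ S) (hm : Mixing s X R R') : Reached S s X f c R'
  | limit (R : ℕ → Set ((ℕ → Fin l) × (ℕ → Fin l))) (h : Reached S s X f c (R 0))
      (hR : ∀ n, IsFactor s X (R n)) (hRR : ∀ n, R (n + 1) ⊆ R n)
      (hS : codeSeq (fun n => R (n + 1)) ∈ S)
      (hs : ∀ n, ProximalStep s (R n) (R (n + 1)) ∨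
        DistalStep s (R n) (R (n + 1)) ∧ FiniteStep (R n) (R (n + 1))) :
      Reached S s X f c (⋂ n, R n)

/-! ### Translations -/

theorem pre2_iff {R : Set ((ℕ → Fin l) × (ℕ → Fin l))} {w : List (Fin l) × List (Fin l)} :
    TW.pre2 R w ↔ ∃ p ∈ R, ∃ i j, ((List.range i).map p.1, (List.range j).map p.2) = w := by
  constructor
  · rintro ⟨p, hp, h1, h2⟩
    refine ⟨p, hp, w.1.length, w.2.length, Prod.ext ?_ ?_⟩
    · refine List.ext_getElem (by simp) fun i hi hi' => ?_
      simp only [List.getElem_map, List.getElem_range]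
      exact h1 i hi'
    · refine List.ext_getElem (by simp) fun i hi hi' => ?_
      simp only [List.getElem_map, List.getElem_range]
      exact h2 i hi'
  · rintro ⟨p, hp, i, j, rfl⟩
    refine ⟨p, hp, fun i hi => ?_, fun i hi => ?_⟩ <;> simp

theorem ar_pre2 {S : Set (Set ℕ)} (hS : HK.Cl S) {R : Set ((ℕ → Fin l) × (ℕ → Fin l))}
    (h : codeRel R ∈ S) : HK.Ar S (TW.pre2 R) := by
  refine HK.Ar.of_encode hS ?_
  convert h using 1
  ext n
  constructor
  · rintro ⟨w, rfl, hw⟩
    obtain ⟨p, hp, i, j, h⟩ := pre2_iff.1 hw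
    exact ⟨p, hp, i, j, by rw [h]⟩
  · rintro ⟨p, hp, i, j, h⟩
    exact ⟨_, h, pre2_iff.2 ⟨p, hp, i, j, rfl⟩⟩

theorem ar_pre2_seq {S : Set (Set ℕ)} (hS : HK.Cl S) {R : ℕ → Set ((ℕ → Fin l) × (ℕ → Fin l))}
    (h : codeSeq R ∈ S) :
    HK.Ar S fun p : ℕ × List (Fin l) × List (Fin l) => TW.pre2 (R p.1) p.2 := by
  refine HK.Ar.of_encode hS ?_
  convert h using 1
  ext n
  constructor
  · rintro ⟨⟨t, w⟩, rfl, hw⟩
    obtain ⟨p, hp, i, j, h⟩ := pre2_iff.1 hw
    exact ⟨t, p, hp, i, j, by rw [h]⟩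
  · rintro ⟨t, p, hp, i, j, h⟩
    exact ⟨_, h, pre2_iff.2 ⟨p, hp, i, j, rfl⟩⟩

theorem icer {s : ℕ → ℕ} {X : Set (ℕ → Fin l)} {R : Set ((ℕ → Fin l) × (ℕ → Fin l))}
    (h : IsFactor s X R) : TX.ICER s X R :=
  ⟨h.closed, h.sub, h.refl, h.symm, h.trans, h.invariant⟩

theorem minimal {s : ℕ → ℕ} {X : Set (ℕ → Fin l)} (h : IsMinimal s X) : TX.Minimal s X :=
  ⟨h.nonempty, h.closed, h.invariant, h.minimal⟩

theorem mixes {s : ℕ → ℕ} {X : Set (ℕ → Fin l)} {R R' : Set ((ℕ → Fin l) × (ℕ → Fin l))}
    (h : Mixing s X R R') : TX.Mixes s X R R' := by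
  induction h with
  | refl => exact .refl
  | step R₁ R₂ _ hR hRR hm ih => exact .step R₁ R₂ ih (icer hR) hRR hm
  | limit R' _ hRR ih => exact .lim R' ih hRR

theorem pre_iff {X : Set (ℕ → Fin l)} {w : List (Fin l)} :
    TW.pre X w ↔ ∃ z ∈ X, ∃ i, (List.range i).map z = w := by
  constructor
  · rintro ⟨z, hz, h⟩
    refine ⟨z, hz, w.length, List.ext_getElem (by simp) fun i hi hi' => ?_⟩
    simp only [List.getElem_map, List.getElem_range]
    exact h i hi'
  · rintro ⟨z, hz, i, rfl⟩
    exact ⟨z, hz, fun i hi => by simp⟩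

theorem code_eq (X : Set (ℕ → Fin l)) :
    code X = {n | ∃ w : List (Fin l), Encodable.encode w = n ∧ TW.pre X w} := by
  ext n
  constructor
  · rintro ⟨z, hz, i, h⟩
    exact ⟨_, h, pre_iff.2 ⟨z, hz, i, rfl⟩⟩
  · rintro ⟨w, rfl, hw⟩
    obtain ⟨z, hz, i, h⟩ := pre_iff.1 hw
    exact ⟨z, hz, i, by rw [h]⟩

theorem reached {S : Set (Set ℕ)} (hS : HK.Cl S) {s : ℕ → ℕ} {X : Set (ℕ → Fin l)}
    {f : Fin l → Fin k} {c : ℕ → Fin k} {R : Set ((ℕ → Fin l) × (ℕ → Fin l))}
    (h : Reached S s X f c R) : TX.Reached S s X f c R := by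
  induction h with
  | full => exact .full
  | point R hR hRS y hy hyc hd => exact .point R (icer hR) (ar_pre2 hS hRS) y hy hyc hd
  | proximal R R' _ hR' hRR hp ih => exact .prox R R' ih (icer hR') hRR hp
  | isometric R R' _ hR' hRR hi ih => exact .iso R R' ih (icer hR') hRR hi
  | distal R R' _ hR' hRR hRS hd ih => exact .distal R R' ih (icer hR') (ar_pre2 hS hRS) hRR hd
  | mixing R R' _ hRS hRS' hm ih =>
    exact .mixing R R' ih (ar_pre2 hS hRS) (ar_pre2 hS hRS') (mixes hm)
  | limit R _ hR hRR hRS hs ih =>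
    exact .tower R ih (fun n => icer (hR n)) (ar_pre2_seq hS hRS) hRR hs

/-! ### The theorem -/

/-- Every point of `M` is a limit of shifts `c (x + ·)` with `x → ∞`. -/
def InLimitSet (c : ℕ → Fin k) (M : Set (ℕ → Fin k)) : Prop :=
  ∀ z ∈ M, ∀ m N, ∃ x, N ≤ x ∧ ∀ i < m, c (x + i) = z i

/-- **Hindman's theorem in omega-models of `ACA_0` along towers of extensions.** Let `S` be an
omega-model of `ACA_0` and `c` a finite colouring in `S`. Then the limit set of `c` contains a
minimal subshift with code in `S`. Moreover, let `X` be any minimal system with code in `S` and `θ`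
(given by `f`) an equivariant map from `X` into the limit set of `c`. If some reached closed
invariant equivalence relation `R` on `X` is contained in the kernel of `θ` (so that `X / R` is an
extension of the minimal subshift `θ X`), then `S` contains a solution to the instance `c` of
Hindman's theorem. -/
theorem result (S : Set (Set ℕ)) (hS : IsModelACA S) (c : ℕ → Fin k)
    (hc : ∀ i, {x | c x = i} ∈ S) :
    (∃ M : Set (ℕ → Fin k), IsMinimal Nat.succ M ∧ InLimitSet c M ∧ code M ∈ S) ∧
    ∀ (l : ℕ) (s : ℕ → ℕ) (X : Set (ℕ → Fin l)) (f : Fin l → Fin k), Nat.Primrec s →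
      IsMinimal s X → code X ∈ S → InLimitSet c {w | ∃ z ∈ X, w = fun i => f (z (s^[i] 0))} →
      ∀ R, Reached S s X f c R → (∀ a b, (a, b) ∈ R → f (a 0) = f (b 0)) →
        ∃ Y ∈ S, IsSolution c Y := by
  have hC : HK.Cl S := KC.cl_of_ideal hS.nonempty hS.recursive hS.projection
  have hcS : HK.ArF S c := KC.arF_of_classes hC hc
  refine ⟨?_, ?_⟩
  · obtain ⟨M, hM, hMc, hMS⟩ := TX.exists_coded_minimal hC hcS
    refine ⟨M, ⟨hM.nonempty, hM.closed, hM.shift, hM.minimal⟩, hMc, ?_⟩
    rw [code_eq]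
    exact TX.mem_of_ar hC hMS
  · intro l s X f hs hX hXS hlim R hR hf
    refine TX.main hC (Primrec.nat_iff.2 hs) (minimal hX) (HK.Ar.of_encode hC ?_) ?_ hcS
      (reached hC hR) hf
    · rw [← code_eq]
      exact hXS
    · intro z hz m N
      obtain ⟨x, hx, h⟩ := hlim _ ⟨z, hz, rfl⟩ m N
      exact ⟨x, hx, fun i hi => (h i hi).symm⟩

end Pool.Agent.Results.MP_69fea5_lc.TowerSystems
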